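import Pool.Agent.H1.LP.Targets

/-! # SETH for linear programs: module COEF (helper88) -/

namespace Pool.Agent.H88.LP

open Finset hiding val
open Pool.Agent.H1.LP

theorem coef_num (E : ℕ) (hE : 8 ≤ E) : 16 * E ^ 2 * 36 ^ E ≤ 256 ^ E := by
  induction E, hE using Nat.le_induction with
  | base => norm_num
  | succ E hE ih =>
    have h1 : (E + 1) ^ 2 ≤ 2 * E ^ 2 := by nlinarith
    calc 16 * (E + 1) ^ 2 * 36 ^ (E + 1) ≤ 16 * (2 * E ^ 2) * 36 ^ (E + 1) := by gcongr
      _ = 72 * (16 * E ^ 2 * 36 ^ E) := by ring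
      _ ≤ 72 * 256 ^ E := by gcongr
      _ ≤ 256 * 256 ^ E := by gcongr; norm_num
      _ = 256 ^ (E + 1) := by ring

theorem coef_num2 (E B t p : ℕ) (hE : 8 ≤ E) (hB : B ≤ 2 * (E * t)) (hp : 2 ^ (4 * E) < p) :
    (4 * E) ^ (2 * t) * 6 ^ B < p ^ (2 * t + 1) := by
  have h0 : 0 < p := lt_of_le_of_lt (Nat.zero_le _) hp
  calc (4 * E) ^ (2 * t) * 6 ^ B ≤ (4 * E) ^ (2 * t) * 6 ^ (2 * (E * t)) := by
        gcongr; norm_num
    _ = (16 * E ^ 2 * 36 ^ E) ^ t := by
        rw [pow_mul (4 * E) 2 t, pow_mul 6 2 (E * t), pow_mul (6 ^ 2) E t, ← mul_pow]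
        congr 1
        rw [mul_pow]
        norm_num
    _ ≤ (256 ^ E) ^ t := by gcongr; exact coef_num E hE
    _ = (2 ^ (4 * E)) ^ (2 * t) := by
        rw [pow_mul (2 ^ (4 * E)) 2 t]
        congr 1
        rw [← pow_mul, show (256 : ℕ) = 2 ^ 8 by norm_num, ← pow_mul]
        congr 1
        ring
    _ ≤ p ^ (2 * t) := by gcongr
    _ < p ^ (2 * t + 1) := by
        rw [pow_succ]
        have : 1 < p := lt_of_le_of_lt (Nat.one_le_two_pow) hp
        exact lt_mul_of_one_lt_right (by positivity) this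

theorem coef : S_DISP → S_NUMC → S_COL → S_COEF := by
  intro hdisp hnumc hcol E B p _ hE hB hp
  classical
  have hEB : E ≤ B := by
    have h1 : E * 1 ≤ E * (2 * (4 * E + 1) * E) := Nat.mul_le_mul_left _ (by
      have : 0 < 2 * (4 * E + 1) * E := by positivity
      omega)
    have h2 : 2 * (4 * E + 1) * E ^ 2 = E * (2 * (4 * E + 1) * E) := by ring
    omega
  obtain ⟨T, hT, hd⟩ := hdisp E B (by omega) hEB hB
  set t : ℕ := B / E with ht
  have hE0 : 0 < E := by omega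
  have ht1 : 1 ≤ t := (Nat.one_le_div_iff hE0).mpr hEB
  have hEt : E * t ≤ B := Nat.mul_div_le B E
  have h8t : 8 * t ≤ B := le_trans (Nat.mul_le_mul_right t hE) hEt
  have hB2 : B ≤ 2 * (E * t) := by
    have h1 : B < E * (t + 1) := by
      rw [mul_comm]
      exact Nat.lt_mul_of_div_lt (by omega) hE0
    have h2 : E * (t + 1) = E * t + E := by ring
    have h3 : E * 1 ≤ E * t := Nat.mul_le_mul_left _ ht1
    omega
  refine Exists.intro T ?_
  by_contra hcon
  push Not at hcon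
  -- the tables
  let AA : (Fin B → Fin (4 * E * B) → ZMod p) → Fin (4 * E * B) → Fin B → ZMod p :=
    fun a i j => if j ∈ T i then a j i else 0
  have hAA : ∀ a i, supp (AA a i) ⊆ T i := by
    intro a i j hj
    by_contra hne
    have := (mem_filter.mp hj).2
    simp [AA, hne] at this
  have hbad := fun a => hcon (AA a) hT (hAA a)
  let Cs : Finset (Fin (4 * E * B) → ZMod p) :=
    univ.filter (fun c => t < (supp c).card ∧ (supp c).card ≤ 2 * t)
  let Bad : (Fin (4 * E * B) → ZMod p) → Finset (Fin B) →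
      Finset (Fin B → Fin (4 * E * B) → ZMod p) := fun c U =>
    univ.filter (fun a => ∀ j ∈ U, ∑ i, c i * (if j ∈ T i then a j i else 0) = 0)
  let Us : Finset (Finset (Fin B)) := univ.filter (fun U => U.card = 8 * t)
  have hcover : (univ : Finset (Fin B → Fin (4 * E * B) → ZMod p)) ⊆
      (Cs ×ˢ Us).biUnion (fun q => Bad q.1 q.2) := by
    intro a _
    obtain ⟨c, hc1, hc2, hc3⟩ := hbad a
    have hz : 8 * t ≤ (univ.filter (fun j => comb (AA a) c j = 0)).card := by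
      have h1 := card_filter_add_card_filter_not (s := (univ : Finset (Fin B)))
        (fun j => comb (AA a) c j = 0)
      rw [card_univ, Fintype.card_fin] at h1
      have h2 : (univ.filter (fun j => ¬ comb (AA a) c j = 0)).card =
          (supp (comb (AA a) c)).card := rfl
      omega
    obtain ⟨U, hU1, hU2⟩ := exists_subset_card_eq hz
    refine mem_biUnion.mpr ⟨(c, U), mem_product.mpr ⟨?_, ?_⟩, ?_⟩
    · exact mem_filter.mpr ⟨mem_univ _, hc1, hc2⟩
    · exact mem_filter.mpr ⟨mem_univ _, hU2⟩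
    · refine mem_filter.mpr ⟨mem_univ _, fun j hj => ?_⟩
      exact (mem_filter.mp (hU1 hj)).2
  have hone : ∀ q ∈ Cs ×ˢ Us, (Bad q.1 q.2).card * p ^ (4 * t + 1) ≤ p ^ (4 * E * B * B) := by
    rintro ⟨c, U⟩ hq
    obtain ⟨hc, hU⟩ := mem_product.mp hq
    have hc' := (mem_filter.mp hc).2
    have hU' := (mem_filter.mp hU).2
    refine hcol p B (4 * E * B) T c U (4 * t + 1) ?_
    by_contra hlt
    push Not at hlt
    -- the elements of `U` avoiding all `T i`
    have h1 := card_filter_add_card_filter_not (s := U) (fun j => ∃ i, c i ≠ 0 ∧ j ∈ T i)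
    have h2 : 4 * t ≤ (U.filter (fun j => ¬ ∃ i, c i ≠ 0 ∧ j ∈ T i)).card := by
      simp only at hU'
      omega
    obtain ⟨i, hi, j, hj, hjT⟩ := hd (supp c) _ (le_of_lt hc'.1) h2
    exact (mem_filter.mp hj).2 ⟨i, (mem_filter.mp hi).2, hjT⟩
  have hcard : Fintype.card (Fin B → Fin (4 * E * B) → ZMod p) = p ^ (4 * E * B * B) := by
    rw [Fintype.card_fun, Fintype.card_fun, ZMod.card, Fintype.card_fin, Fintype.card_fin,
      ← pow_mul]
  have hUs : Us.card ≤ 2 ^ B := by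
    calc Us.card ≤ (univ : Finset (Finset (Fin B))).card := card_filter_le _ _
      _ = 2 ^ B := by rw [card_univ, Fintype.card_finset, Fintype.card_fin]
  have hp0 : 0 < p := lt_of_le_of_lt (Nat.zero_le _) hp
  have hpos : 0 < p ^ (4 * E * B * B) := pow_pos hp0 _
  have hsum : p ^ (4 * E * B * B) * p ^ (4 * t + 1) ≤ Cs.card * 2 ^ B * p ^ (4 * E * B * B) := by
    calc p ^ (4 * E * B * B) * p ^ (4 * t + 1)
        = (univ : Finset (Fin B → Fin (4 * E * B) → ZMod p)).card * p ^ (4 * t + 1) := by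
          rw [card_univ, hcard]
      _ ≤ (∑ q ∈ Cs ×ˢ Us, (Bad q.1 q.2).card) * p ^ (4 * t + 1) := by
          gcongr
          exact (card_le_card hcover).trans card_biUnion_le
      _ = ∑ q ∈ Cs ×ˢ Us, (Bad q.1 q.2).card * p ^ (4 * t + 1) := by rw [sum_mul]
      _ ≤ ∑ _q ∈ Cs ×ˢ Us, p ^ (4 * E * B * B) := sum_le_sum hone
      _ = Cs.card * Us.card * p ^ (4 * E * B * B) := by
          rw [sum_const, card_product, smul_eq_mul]
      _ ≤ Cs.card * 2 ^ B * p ^ (4 * E * B * B) := by gcongr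
  have hmain : p ^ (4 * t + 1) ≤ Cs.card * 2 ^ B := by
    have := hsum
    rw [mul_comm] at this
    exact Nat.le_of_mul_le_mul_right this hpos
  have hCs : (Cs.card : ℝ) ≤ ((p : ℝ) * (4 * E)) ^ (2 * t) * 3 ^ B := by
    refine le_trans ?_ (hnumc E B p t (by omega) (Fact.out (p := p.Prime)).two_le)
    have hsub : Cs ⊆ univ.filter (fun c : Fin (4 * E * B) → ZMod p => (supp c).card ≤ 2 * t) := by
      intro c hc
      exact mem_filter.mpr ⟨mem_univ _, (mem_filter.mp hc).2.2⟩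
    exact_mod_cast card_le_card hsub
  have hfin := coef_num2 E B t p hE hB2 hp
  have h1 : ((p : ℝ) ^ (4 * t + 1)) ≤ ((p : ℝ) * (4 * E)) ^ (2 * t) * 3 ^ B * 2 ^ B := by
    calc ((p : ℝ) ^ (4 * t + 1)) ≤ (Cs.card : ℝ) * 2 ^ B := by exact_mod_cast hmain
      _ ≤ _ := by gcongr
  have h2 : ((4 * E : ℝ)) ^ (2 * t) * 6 ^ B < (p : ℝ) ^ (2 * t + 1) := by exact_mod_cast hfin
  have h3 : ((p : ℝ) * (4 * E)) ^ (2 * t) * 3 ^ B * 2 ^ B =
      (p : ℝ) ^ (2 * t) * ((4 * E : ℝ) ^ (2 * t) * 6 ^ B) := by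
    rw [mul_pow, show (6 : ℝ) = 3 * 2 by norm_num, mul_pow (3 : ℝ) 2 B]
    ring
  have h4 : (p : ℝ) ^ (4 * t + 1) = (p : ℝ) ^ (2 * t) * (p : ℝ) ^ (2 * t + 1) := by
    rw [← pow_add]
    congr 1
    ring
  rw [h3, h4] at h1
  have h5 : (0 : ℝ) < (p : ℝ) ^ (2 * t) := by positivity
  exact absurd (le_of_mul_le_mul_left h1 h5) (not_le.mpr h2)

end Pool.Agent.H88.LP
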