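import Pool.Agent.H1.LP.Targets

/-! # SETH for linear programs: module ENC (helper88) -/

namespace Pool.Agent.H88.LP

open Finset Pool.Agent.H1.LP

theorem enc : S_ENC := by
  intro n B b hn
  classical
  let bit : Fin B × Fin b → Fin n := fun q => Fin.castLE hn (finProdFinEquiv q)
  have hbit : Function.Injective bit := fun q q' h =>
    finProdFinEquiv.injective (Fin.castLE_injective hn h)
  refine ⟨fun x i => if h : (i : ℕ) < B * b then
      x (finProdFinEquiv.symm ⟨i, h⟩).1 (finProdFinEquiv.symm ⟨i, h⟩).2 else false,
    fun y j l => y (bit (j, l)),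
    fun T v => (T ×ˢ (univ : Finset (Fin b))).image (fun q => (bit q, !(v q.1 q.2))), ?_, ?_, ?_⟩
  · intro x
    funext j l
    have h1 : ((bit (j, l) : Fin n) : ℕ) < B * b := by
      simp only [bit, Fin.val_castLE]
      exact Fin.is_lt _
    have h2 : (⟨((bit (j, l) : Fin n) : ℕ), h1⟩ : Fin (B * b)) = finProdFinEquiv (j, l) := by
      ext
      simp [bit]
    simp only [h1, dif_pos, h2, Equiv.symm_apply_apply]
  · intro T v y
    unfold Clause.Sat Agree
    constructor
    · rintro ⟨q, hq, hy⟩ hag
      rw [mem_image] at hq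
      obtain ⟨⟨j, l⟩, hjl, rfl⟩ := hq
      have hj : j ∈ T := (mem_product.mp hjl).1
      have h3 := congrFun (hag j hj) l
      simp only at h3 hy
      rw [h3] at hy
      cases hv : v j l <;> simp [hv] at hy
    · intro hag
      push Not at hag
      obtain ⟨j, hj, hne⟩ := hag
      obtain ⟨l, hl⟩ := Function.ne_iff.mp hne
      refine ⟨(bit (j, l), !(v j l)), mem_image.mpr ⟨(j, l), ?_, rfl⟩, ?_⟩
      · exact mem_product.mpr ⟨hj, mem_univ _⟩
      · simp only
        revert hl
        cases y (bit (j, l)) <;> cases v j l <;> simp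
  · intro T v
    have hinj : Function.Injective (fun q : Fin B × Fin b => (bit q, !(v q.1 q.2))) := by
      intro q q' h
      exact hbit (Prod.ext_iff.mp h).1
    refine ⟨?_, ?_⟩
    · rw [card_image_of_injective _ hinj, card_product, card_univ, Fintype.card_fin]
    · rw [image_image]
      have : (Prod.fst ∘ fun q : Fin B × Fin b => (bit q, !(v q.1 q.2))) = bit := rfl
      rw [this, card_image_of_injective _ hbit, card_product, card_univ, Fintype.card_fin]

end Pool.Agent.H88.LP
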