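import Pool.Agent.H1.LP.Targets

/-! # SETH for linear programs: module FORM (helper88) -/

namespace Pool.Agent.H88.LP

open Finset hiding val
open Pool.Agent.H1.LP

/-- the inner product only depends on the blocks in the support -/
theorem ip_congr {p B b : ℕ} (l : Fin B → ZMod p) (T : Finset (Fin B)) (hl : supp l ⊆ T)
    (al : Fin B → (Fin b → Bool) → ZMod p) (v w : Fin B → Fin b → Bool) (h : ∀ j ∈ T, v j = w j) :
    ip l (val al v) = ip l (val al w) := by
  unfold ip val
  refine sum_congr rfl fun j _ => ?_
  by_cases hj : j ∈ T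
  · rw [h j hj]
  · have : l j = 0 := by
      by_contra hne
      exact hj (hl (by simp [supp, hne]))
    rw [this, zero_mul, zero_mul]

theorem form : S_FORM := by
  intro p B R k b n _ T A be al dec cl hT hA hcl
  classical
  let G : Finset (Fin R × (Fin B → Fin b → Bool)) := univ.filter (fun q =>
    (∀ j, j ∉ T q.1 → q.2 j = fun _ => false) ∧ ip (A q.1) (val al q.2) ≠ be q.1)
  let e : Fin G.card ≃ G := G.equivFin.symm
  have hG : ∀ q : G, (∀ j, j ∉ T q.1.1 → q.1.2 j = fun _ => false) ∧
      ip (A q.1.1) (val al q.1.2) ≠ be q.1.1 := fun q => (mem_filter.mp q.2).2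
  refine ⟨G.card, fun a => cl (T (e a).1.1) (e a).1.2, ?_, ?_, ?_⟩
  · rw [card_eq_sum_card_fiberwise (f := Prod.fst) (t := (univ : Finset (Fin R)))
      (fun _ _ => by simp)]
    have hfib : ∀ i ∈ (univ : Finset (Fin R)), (G.filter (fun q => q.1 = i)).card ≤
        2 ^ (b * k) := by
      intro i _
      have hc : Fintype.card ({j // j ∈ T i} → Fin b → Bool) = 2 ^ (b * k) := by
        rw [Fintype.card_fun, Fintype.card_fun, Fintype.card_bool, Fintype.card_fin,
          Fintype.card_coe, hT i, ← pow_mul]
      rw [← hc, ← card_univ]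
      refine card_le_card_of_injOn (fun q => fun j : {j // j ∈ T i} => q.2 j.1) (by simp) ?_
      rintro ⟨i1, v1⟩ h1 ⟨i2, v2⟩ h2 heq
      have h1' := mem_filter.mp (mem_coe.mp h1)
      have h2' := mem_filter.mp (mem_coe.mp h2)
      have e1 : i1 = i := h1'.2
      have e2 : i2 = i := h2'.2
      have g1 := (mem_filter.mp h1'.1).2.1
      have g2 := (mem_filter.mp h2'.1).2.1
      simp only at g1 g2 heq
      subst e1
      subst e2
      have : v1 = v2 := by
        funext j
        by_cases hj : j ∈ T i2
        · exact congrFun heq ⟨j, hj⟩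
        · rw [g1 j hj, g2 j hj]
      rw [this]
    calc ∑ i, (G.filter (fun q => q.1 = i)).card ≤ ∑ _i : Fin R, 2 ^ (b * k) := sum_le_sum hfib
      _ = R * 2 ^ (b * k) := by simp
  · intro a
    exact ⟨(e a).1.1, (e a).1.2, (hG (e a)).1, rfl, (hG (e a)).2⟩
  · intro y
    unfold viol
    refine card_bij (fun a _ => (e a).1.1) ?_ ?_ ?_
    · intro a ha
      have h1 := (mem_filter.mp ha).2
      rw [hcl, not_not] at h1
      refine mem_filter.mpr ⟨mem_univ _, ?_⟩
      rw [ip_congr (A (e a).1.1) (T (e a).1.1) (hA _) al (dec y) (e a).1.2 h1]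
      exact (hG (e a)).2
    · intro a ha a' ha' heq
      have h1 := (mem_filter.mp ha).2
      have h2 := (mem_filter.mp ha').2
      rw [hcl, not_not] at h1 h2
      apply e.injective
      apply Subtype.ext
      refine Prod.ext heq ?_
      funext j
      by_cases hj : j ∈ T (e a).1.1
      · rw [← h1 j hj]
        exact h2 j (heq ▸ hj)
      · rw [(hG (e a)).1 j hj, (hG (e a')).1 j (fun h => hj (heq ▸ h))]
    · intro i hi
      have h1 := (mem_filter.mp hi).2
      let v : Fin B → Fin b → Bool := fun j => if j ∈ T i then dec y j else fun _ => false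
      have hv : ∀ j ∈ T i, dec y j = v j := fun j hj => by simp [v, hj]
      have hmem : (i, v) ∈ G := by
        refine mem_filter.mpr ⟨mem_univ _, ?_, ?_⟩
        · intro j hj
          simp only at hj
          simp [v, hj]
        · simp only
          rw [← ip_congr (A i) (T i) (hA i) al (dec y) v hv]
          exact h1
      refine ⟨e.symm ⟨(i, v), hmem⟩, ?_, ?_⟩
      · refine mem_filter.mpr ⟨mem_univ _, ?_⟩
        rw [hcl, not_not, Equiv.apply_symm_apply]
        exact hv
      · simp only [Equiv.apply_symm_apply]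

end Pool.Agent.H88.LP
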