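import Pool.Agent.H7.LP.Targets

/-!
# Closed relations between labels
-/

set_option autoImplicit false

open Set Filter Topology

namespace Pool.Agent.H88.LP

open Pool.Agent.H7.LP

/-- projection along a compact set -/
private theorem proj {T G : Type} [TopologicalSpace T] [TopologicalSpace G] (S : Set (T × G))
    (hS : IsClosed S) (C : Set G) (hC : IsCompact C) : IsClosed {p : T | ∃ h ∈ C, (p, h) ∈ S} := by
  have : CompactSpace C := isCompact_iff_compactSpace.1 hC
  have h1 : IsClosed ((fun q : T × C => ((q.1, (q.2 : G)) : T × G)) ⁻¹' S) :=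
    hS.preimage (continuous_fst.prodMk (continuous_subtype_val.comp continuous_snd))
  have h2 := isClosedMap_fst_of_compactSpace _ h1
  have h3 : {p : T | ∃ h ∈ C, (p, h) ∈ S} =
      Prod.fst '' ((fun q : T × C => ((q.1, (q.2 : G)) : T × G)) ⁻¹' S) := by
    ext p
    constructor
    · rintro ⟨h, hh, hp⟩
      exact ⟨(p, ⟨h, hh⟩), hp, rfl⟩
    · rintro ⟨⟨p', h⟩, hp, rfl⟩
      exact ⟨h, h.2, hp⟩
  rw [h3]
  exact h2

private theorem main (h1 : T_LAB) (h3 : T_CLA) {G X : Type} [Group G] [TopologicalSpace G]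
    [IsTopologicalGroup G] [TopologicalSpace X] (R H : Subgroup G) (hP : Piece R H)
    (B : Set (Set G)) (hB : TopologicalSpace.IsTopologicalBasis B) (c : ℕ → X → ℕ → Set G)
    (hc : ∀ (i n : ℕ), ∀ U ∈ B, IsClosed {x | (lab R (c i x) n ∩ U).Nonempty} ∧
      IsOpen {x | (lab R (c i x) n ∩ U).Nonempty}) :
    (∀ (i j : ℕ) (C : Set G), IsCompact C → (∀ k ∈ C, k ∈ H) →
      IsClosed {p : X × X | ∃ h ∈ C, lab R (tr h (c i p.1)) = lab R (c j p.2)}) ∧
    ∀ (i : ℕ) (y : ℕ → Set G), (∀ n, IsClosed (y n)) →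
      IsClosed {p : X × G | p.2 ∈ H ∧ lab R (tr p.2 (c i p.1)) = y} := by
  obtain ⟨l1, l2, -⟩ := h1 G
  constructor
  · intro i j C hC hCH
    have e1 : ∀ n, IsClosed {p : (X × X) × G |
        {a | a * p.2 ∈ lab R (c i p.1.1) n} = lab R (c j p.1.2) n} := fun n =>
      h3 G X X B (fun x => lab R (c i x) n) (fun x => lab R (c j x) n) hB
        (fun x => l1 R _ n) (fun x => l1 R _ n) (fun U hU => hc i n U hU)
        (fun U hU => hc j n U hU)
    have e2 := proj _ (isClosed_iInter e1) C hC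
    have e3 : {p : X × X | ∃ h ∈ C, lab R (tr h (c i p.1)) = lab R (c j p.2)} =
        {p : X × X | ∃ h ∈ C, (p, h) ∈ ⋂ n, {p : (X × X) × G |
          {a | a * p.2 ∈ lab R (c i p.1.1) n} = lab R (c j p.1.2) n}} := by
      ext p
      refine exists_congr fun h => and_congr_right fun hh => ?_
      rw [l2 R H _ hP h (hCH h hh), Set.mem_iInter]
      exact funext_iff
    rw [e3]
    exact e2
  · intro i y hy
    have e1 : ∀ n, IsClosed {p : (X × Unit) × G |
        {a | a * p.2 ∈ lab R (c i p.1.1) n} = y n} := fun n =>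
      h3 G X Unit B (fun x => lab R (c i x) n) (fun _ => y n) hB
        (fun x => l1 R _ n) (fun _ => hy n) (fun U hU => hc i n U hU)
        (fun U _ => ⟨isClosed_discrete _, isOpen_discrete _⟩)
    have e2 : IsClosed ((fun p : X × G => (((p.1, ()), p.2) : (X × Unit) × G)) ⁻¹'
        ⋂ n, {p : (X × Unit) × G | {a | a * p.2 ∈ lab R (c i p.1.1) n} = y n}) :=
      (isClosed_iInter e1).preimage
        ((continuous_fst.prodMk continuous_const).prodMk continuous_snd)
    have hHc : IsClosed {p : X × G | p.2 ∈ H} :=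
      (Subgroup.isClosed_of_isOpen H hP.op).preimage continuous_snd
    have e3 : {p : X × G | p.2 ∈ H ∧ lab R (tr p.2 (c i p.1)) = y} =
        {p : X × G | p.2 ∈ H} ∩ ((fun p : X × G => (((p.1, ()), p.2) : (X × Unit) × G)) ⁻¹'
        ⋂ n, {p : (X × Unit) × G | {a | a * p.2 ∈ lab R (c i p.1.1) n} = y n}) := by
      ext p
      refine and_congr_right fun hh => ?_
      rw [l2 R H _ hP p.2 hh, Set.mem_preimage, Set.mem_iInter]
      exact funext_iff
    rw [e3]
    exact hHc.inter e2

theorem pf_CLR (h1 : T_LAB) (h2 : T_RTP) (h3 : T_CLA) : T_CLR := by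
  intro G X _ _ _ _ _ _ M _ Y R H g hP
  obtain ⟨t, B, ht1, ht2, hB, hc⟩ := h2 G X M Y R g
  have hm := @main h1 h3 G X _ _ _ t R H hP B hB (fun i x => tr (g i) (Y.C x)) hc
  refine ⟨t, ht1, ht2, ?_, ?_⟩
  · intro i j C hC hCH
    have := hm.1 i j C hC hCH
    simp only [tr_mul]
    exact this
  · intro i y hy
    have := hm.2 i y hy
    simp only [tr_mul]
    exact this

end Pool.Agent.H88.LP
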