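import Pool.Agent.H7.LP.Targets

/-!
# A piece is sigma-compact modulo its normal subgroup
-/

set_option autoImplicit false

open Set Filter Topology

namespace Pool.Agent.H88.LP

open Pool.Agent.H7.LP

theorem pf_SGC : T_SGC := by
  intro G _ _ _ _ R H hP
  obtain ⟨C0, hC0, hN⟩ := hP.lc
  have : Nonempty G := ⟨1⟩
  have hHc : IsClosed (H : Set G) := Subgroup.isClosed_of_isOpen H hP.op
  refine ⟨fun l => ((fun c => TopologicalSpace.denseSeq G l * c) '' C0) ∩ (H : Set G), ?_, ?_, ?_⟩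
  · intro l
    exact (hC0.image (continuous_const.mul continuous_id)).inter_right hHc
  · intro l c hc
    exact hc.2
  · intro h hh
    have hop : IsOpen {d : G | d⁻¹ * h ∈ interior {g : G | ∃ c ∈ C0, c⁻¹ * g ∈ R}} :=
      isOpen_interior.preimage (continuous_inv.mul continuous_const)
    have hne : ({d : G | d⁻¹ * h ∈ interior {g : G | ∃ c ∈ C0, c⁻¹ * g ∈ R}}).Nonempty := by
      refine ⟨h, ?_⟩
      change h⁻¹ * h ∈ interior {g : G | ∃ c ∈ C0, c⁻¹ * g ∈ R}
      rw [inv_mul_cancel]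
      exact mem_interior_iff_mem_nhds.2 hN
    obtain ⟨l, hl⟩ := (TopologicalSpace.denseRange_denseSeq G).exists_mem_open hop hne
    obtain ⟨c, hc, hcR⟩ := interior_subset hl
    have h1 : (TopologicalSpace.denseSeq G l * c)⁻¹ * h ∈ R := by
      rw [mul_inv_rev, mul_assoc]
      exact hcR
    refine ⟨l, TopologicalSpace.denseSeq G l * c, ⟨⟨c, hc, rfl⟩, ?_⟩, h1⟩
    have h2 : TopologicalSpace.denseSeq G l * c =
        h * ((TopologicalSpace.denseSeq G l * c)⁻¹ * h)⁻¹ := by
      group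
    rw [h2]
    exact H.mul_mem hh (H.inv_mem (hP.le h1))

end Pool.Agent.H88.LP
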